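import Mathlib

/-!
An even limit-periodic potential whose Schrodinger operator has a square summable
eigenfunction.
-/

set_option autoImplicit false

open Filter Topology

namespace Pool.Agent.Helper90.EvenPot

/-- distance to the nearest integer -/
noncomputable def gd (x : ℝ) : ℝ := |x - round x|

lemma gd_nonneg (x : ℝ) : 0 ≤ gd x := abs_nonneg _

lemma gd_le (x : ℝ) (z : ℤ) : gd x ≤ |x - z| := round_le x z

lemma gd_add_int (x : ℝ) (m : ℤ) : gd (x + m) = gd x := by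
  unfold gd
  rw [round_add_intCast]
  congr 1; push_cast; ring

lemma gd_neg (x : ℝ) : gd (-x) = gd x := by
  apply le_antisymm
  · refine le_trans (gd_le (-x) (-round x)) ?_
    unfold gd
    rw [← abs_neg]
    apply le_of_eq
    congr 1; push_cast; ring
  · refine le_trans (gd_le x (-round (-x))) ?_
    unfold gd
    rw [← abs_neg]
    apply le_of_eq
    congr 1; push_cast; ring

lemma gd_lip' (x y : ℝ) : gd x ≤ |x - y| + gd y := by
  refine le_trans (gd_le x (round y)) ?_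
  unfold gd
  calc |x - round y| = |(x - y) + (y - round y)| := by congr 1; ring
    _ ≤ _ := abs_add_le _ _

lemma gd_lip (x y : ℝ) : |gd x - gd y| ≤ |x - y| := by
  rw [abs_le]
  have h1 := gd_lip' x y
  have h2 := gd_lip' y x
  rw [abs_sub_comm y x] at h2
  constructor <;> linarith

lemma gd_small (x : ℝ) (hx : |x| ≤ 1 / 2) : gd x = |x| := by
  apply le_antisymm
  · simpa using gd_le x 0
  · unfold gd
    by_cases h : round x = 0
    · rw [h]; simp
    · have h1 : (1 : ℝ) ≤ |(round x : ℝ)| := by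
        have : (1 : ℤ) ≤ |round x| := Int.one_le_abs h
        exact_mod_cast this
      have h2 : |(round x : ℝ)| ≤ |x| + |x - round x| := by
        calc |(round x : ℝ)| = |x - (x - round x)| := by congr 1; ring
          _ ≤ _ := abs_sub _ _
      linarith

/-- `T k n` is the distance from `n` to the multiples of `2 * 4 ^ k`. -/
noncomputable def T (k : ℕ) (n : ℤ) : ℝ := (2 * 4 ^ k) * gd ((n : ℝ) / (2 * 4 ^ k))

lemma P_pos (k : ℕ) : (0 : ℝ) < 2 * 4 ^ k := by positivity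

lemma T_nonneg (k : ℕ) (n : ℤ) : 0 ≤ T k n := by
  unfold T
  have := gd_nonneg ((n : ℝ) / (2 * 4 ^ k))
  positivity

lemma T_le (k : ℕ) (n : ℤ) : T k n ≤ |(n : ℝ)| := by
  unfold T
  have h := gd_le ((n : ℝ) / (2 * 4 ^ k)) 0
  rw [Int.cast_zero, sub_zero, abs_div, abs_of_pos (P_pos k), le_div_iff₀ (P_pos k)] at h
  linarith

lemma T_neg (k : ℕ) (n : ℤ) : T k (-n) = T k n := by
  unfold T
  push_cast
  rw [neg_div, gd_neg]

lemma T_lip (k : ℕ) (n : ℤ) : |T k (n + 1) - T k n| ≤ 1 := by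
  unfold T
  rw [← mul_sub, abs_mul, abs_of_pos (P_pos k)]
  have h := gd_lip (((n + 1 : ℤ) : ℝ) / (2 * 4 ^ k)) ((n : ℝ) / (2 * 4 ^ k))
  have h2 : ((n + 1 : ℤ) : ℝ) / (2 * 4 ^ k) - (n : ℝ) / (2 * 4 ^ k) = 1 / (2 * 4 ^ k) := by
    push_cast
    rw [← sub_div]; congr 1; ring
  rw [h2, abs_of_pos (one_div_pos.mpr (P_pos k)), le_div_iff₀ (P_pos k)] at h
  linarith

lemma T_small (k : ℕ) (n : ℤ) (h : |(n : ℝ)| ≤ 4 ^ k) : T k n = |(n : ℝ)| := by
  unfold T
  have h1 : |(n : ℝ) / (2 * 4 ^ k)| ≤ 1 / 2 := by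
    rw [abs_div, abs_of_pos (P_pos k), div_le_iff₀ (P_pos k)]
    linarith
  rw [gd_small _ h1, abs_div, abs_of_pos (P_pos k)]
  field_simp

lemma T_periodic (k j : ℕ) (hkj : k ≤ j) (n : ℤ) : T k (n + 2 * 4 ^ j) = T k n := by
  unfold T
  obtain ⟨d, rfl⟩ := Nat.exists_eq_add_of_le hkj
  have h : ((n + 2 * 4 ^ (k + d) : ℤ) : ℝ) / (2 * 4 ^ k) =
      (n : ℝ) / (2 * 4 ^ k) + ((4 ^ d : ℤ) : ℝ) := by
    push_cast
    have := P_pos k
    field_simp
    ring
  rw [h, gd_add_int]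

lemma hs2 : Summable (fun k : ℕ => (1 / 2 : ℝ) ^ k) := summable_geometric_two

lemma summable_phi (n : ℤ) : Summable (fun k : ℕ => (1 / 2 : ℝ) ^ k * T k n) := by
  refine Summable.of_nonneg_of_le (fun k => ?_) (fun k => ?_) (hs2.mul_right |(n : ℝ)|)
  · have := T_nonneg k n
    positivity
  · have := T_le k n
    gcongr

/-- The exponent. -/
noncomputable def phi (n : ℤ) : ℝ := ∑' k : ℕ, (1 / 2 : ℝ) ^ k * T k n

/-- Its increments. -/
noncomputable def del (n : ℤ) : ℝ := phi (n + 1) - phi n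

lemma phi_neg (n : ℤ) : phi (-n) = phi n := by
  unfold phi; simp_rw [T_neg]

lemma phi_ge (k : ℕ) (n : ℤ) : (1 / 2 : ℝ) ^ k * T k n ≤ phi n := by
  apply (summable_phi n).le_tsum k
  intro j _
  have := T_nonneg j n
  positivity

lemma phi_nonneg (n : ℤ) : 0 ≤ phi n := by
  have h1 := phi_ge 0 n
  have h2 := T_nonneg 0 n
  simp at h1
  linarith

lemma del_eq (n : ℤ) : del n = ∑' k : ℕ, (1 / 2 : ℝ) ^ k * (T k (n + 1) - T k n) := by
  unfold del phi
  rw [← (summable_phi (n + 1)).tsum_sub (summable_phi n)]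
  congr 1; ext k; ring

lemma summable_del (n : ℤ) : Summable fun k : ℕ => (1 / 2 : ℝ) ^ k * (T k (n + 1) - T k n) := by
  have := (summable_phi (n + 1)).sub (summable_phi n)
  refine this.congr (fun k => ?_)
  ring

/-- truncated increments -/
noncomputable def delK (K : ℕ) (n : ℤ) : ℝ :=
  ∑ k ∈ Finset.range K, (1 / 2 : ℝ) ^ k * (T k (n + 1) - T k n)

lemma del_sub_delK (K : ℕ) (n : ℤ) : |del n - delK K n| ≤ 2 * (1 / 2 : ℝ) ^ K := by
  have h1 := (summable_del n).sum_add_tsum_nat_add K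
  rw [← del_eq] at h1
  have h2 : del n - delK K n =
      ∑' k : ℕ, (1 / 2 : ℝ) ^ (k + K) * (T (k + K) (n + 1) - T (k + K) n) := by
    unfold delK; linarith
  rw [h2]
  have h3 : HasSum (fun k : ℕ => (1 / 2 : ℝ) ^ K * (1 / 2 : ℝ) ^ k) ((1 / 2 : ℝ) ^ K * 2) :=
    hasSum_geometric_two.mul_left _
  have h4 := tsum_of_norm_bounded (f := fun k : ℕ =>
    (1 / 2 : ℝ) ^ (k + K) * (T (k + K) (n + 1) - T (k + K) n)) h3 (fun k => by
      rw [Real.norm_eq_abs, abs_mul, abs_of_pos (by positivity)]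
      have := T_lip (k + K) n
      calc (1 / 2 : ℝ) ^ (k + K) * |T (k + K) (n + 1) - T (k + K) n| ≤ (1 / 2 : ℝ) ^ (k + K) * 1 := by
            gcongr
        _ = _ := by rw [pow_add]; ring)
  rw [Real.norm_eq_abs] at h4
  linarith

lemma del_abs (n : ℤ) : |del n| ≤ 2 := by
  have := del_sub_delK 0 n
  simpa [delK] using this

lemma delK_abs (K : ℕ) (n : ℤ) : |delK K n| ≤ 2 := by
  unfold delK
  refine le_trans (Finset.abs_sum_le_sum_abs _ _) ?_
  calc ∑ k ∈ Finset.range K, |(1 / 2 : ℝ) ^ k * (T k (n + 1) - T k n)|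
      ≤ ∑ k ∈ Finset.range K, (1 / 2 : ℝ) ^ k := by
        apply Finset.sum_le_sum
        intro k _
        rw [abs_mul, abs_of_pos (by positivity)]
        have := T_lip k n
        calc (1 / 2 : ℝ) ^ k * |T k (n + 1) - T k n| ≤ (1 / 2 : ℝ) ^ k * 1 := by gcongr
          _ = _ := mul_one _
    _ ≤ ∑' k : ℕ, (1 / 2 : ℝ) ^ k := hs2.sum_le_tsum _ (fun k _ => by positivity)
    _ = 2 := tsum_geometric_two

lemma delK_periodic (K : ℕ) (n : ℤ) : delK K (n + 2 * 4 ^ K) = delK K n := by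
  unfold delK
  apply Finset.sum_congr rfl
  intro k hk
  have hk' : k ≤ K := (Finset.mem_range.mp hk).le
  rw [show n + 2 * 4 ^ K + 1 = (n + 1) + 2 * 4 ^ K by ring, T_periodic k K hk',
    T_periodic k K hk']

lemma exp_lip (a b : ℝ) (ha : a ≤ 2) (hb : b ≤ 2) :
    |Real.exp a - Real.exp b| ≤ Real.exp 2 * |a - b| := by
  have key : ∀ x y : ℝ, x ≤ 2 → Real.exp x - Real.exp y ≤ Real.exp 2 * |x - y| := by
    intro x y hx
    have h1 : Real.exp y = Real.exp x * Real.exp (y - x) := by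
      rw [← Real.exp_add]; congr 1; ring
    have h2 := Real.add_one_le_exp (y - x)
    have h3 := Real.exp_pos x
    have h4 : Real.exp x ≤ Real.exp 2 := Real.exp_le_exp.mpr hx
    calc Real.exp x - Real.exp y = Real.exp x * (1 - Real.exp (y - x)) := by rw [h1]; ring
      _ ≤ Real.exp x * |x - y| := by
          gcongr
          have := le_abs_self (x - y)
          linarith
      _ ≤ Real.exp 2 * |x - y| := by gcongr
  rw [abs_le]
  have h1 := key a b ha
  have h2 := key b a hb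
  rw [abs_sub_comm b a] at h2
  constructor <;> linarith

/-- The potential. -/
noncomputable def V (n : ℤ) : ℝ := -Real.exp (-del n) - Real.exp (del (n - 1))

/-- Its periodic approximants. -/
noncomputable def VK (K : ℕ) (n : ℤ) : ℝ := -Real.exp (-delK K n) - Real.exp (delK K (n - 1))

lemma VK_periodic (K : ℕ) (n : ℤ) : VK K (n + 2 * 4 ^ K) = VK K n := by
  unfold VK
  rw [delK_periodic, show n + 2 * 4 ^ K - 1 = (n - 1) + 2 * 4 ^ K by ring, delK_periodic]

lemma V_sub_VK (K : ℕ) (n : ℤ) : |V n - VK K n| ≤ 4 * Real.exp 2 * (1 / 2 : ℝ) ^ K := by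
  unfold V VK
  have h1 := exp_lip (-del n) (-delK K n) (by linarith [(abs_le.mp (del_abs n)).1])
    (by linarith [(abs_le.mp (delK_abs K n)).1])
  have h2 := exp_lip (del (n - 1)) (delK K (n - 1)) (by linarith [(abs_le.mp (del_abs (n - 1))).2])
    (by linarith [(abs_le.mp (delK_abs K (n - 1))).2])
  have h3 := del_sub_delK K n
  have h4 := del_sub_delK K (n - 1)
  have h5 : |-del n - -delK K n| = |del n - delK K n| := by
    rw [← abs_neg]; congr 1; ring
  rw [h5] at h1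
  have h6 : Real.exp 2 * |del n - delK K n| ≤ Real.exp 2 * (2 * (1 / 2 : ℝ) ^ K) := by gcongr
  have h7 : Real.exp 2 * |del (n - 1) - delK K (n - 1)| ≤ Real.exp 2 * (2 * (1 / 2 : ℝ) ^ K) := by
    gcongr
  calc |-Real.exp (-del n) - Real.exp (del (n - 1)) -
        (-Real.exp (-delK K n) - Real.exp (delK K (n - 1)))|
      = |-(Real.exp (-del n) - Real.exp (-delK K n)) -
          (Real.exp (del (n - 1)) - Real.exp (delK K (n - 1)))| := by congr 1; ring
    _ ≤ |-(Real.exp (-del n) - Real.exp (-delK K n))| +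
          |Real.exp (del (n - 1)) - Real.exp (delK K (n - 1))| := abs_sub _ _
    _ ≤ 4 * Real.exp 2 * (1 / 2 : ℝ) ^ K := by rw [abs_neg]; linarith

lemma V_bound (n : ℤ) : |V n| ≤ 2 * Real.exp 2 := by
  unfold V
  have h1 : Real.exp (-del n) ≤ Real.exp 2 :=
    Real.exp_le_exp.mpr (by linarith [(abs_le.mp (del_abs n)).1])
  have h2 : Real.exp (del (n - 1)) ≤ Real.exp 2 :=
    Real.exp_le_exp.mpr (by linarith [(abs_le.mp (del_abs (n - 1))).2])
  have h3 := Real.exp_pos (-del n)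
  have h4 := Real.exp_pos (del (n - 1))
  rw [abs_le]
  constructor <;> linarith

lemma V_even (n : ℤ) : V (-n) = V n := by
  unfold V del
  rw [show -n + 1 = -(n - 1) by ring, show -n - 1 + 1 = -n by ring,
    show -n - 1 = -(n + 1) by ring, show n - 1 + 1 = n by ring, phi_neg, phi_neg, phi_neg]
  rw [show -(phi (n - 1) - phi n) = phi n - phi (n - 1) by ring,
    show -(phi (n + 1) - phi n) = phi n - phi (n + 1) by ring]
  ring

lemma exists_K (ε : ℝ) (hε : 0 < ε) : ∃ K : ℕ, 4 * Real.exp 2 * (1 / 2 : ℝ) ^ K < ε := by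
  have h : 0 < 4 * Real.exp 2 := by positivity
  obtain ⟨K, hK⟩ := exists_pow_lt_of_lt_one (by positivity : 0 < ε / (4 * Real.exp 2))
    (by norm_num : (1 / 2 : ℝ) < 1)
  refine ⟨K, ?_⟩
  rw [lt_div_iff₀ h] at hK
  linarith

lemma V_limitPeriodic (ε : ℝ) (hε : 0 < ε) : ∃ P : ℤ → ℝ,
    (∃ p : ℤ, 0 < p ∧ ∀ n : ℤ, P (n + p) = P n) ∧ ∀ n : ℤ, |V n - P n| < ε := by
  obtain ⟨K, hK⟩ := exists_K ε hε
  exact ⟨VK K, ⟨2 * 4 ^ K, by positivity, VK_periodic K⟩,
    fun n => lt_of_le_of_lt (V_sub_VK K n) hK⟩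

lemma V_almostPeriodic (ε : ℝ) (hε : 0 < ε) :
    ∃ p : ℕ, 0 < p ∧ ∀ n : ℤ, |V (n + p) - V n| < ε := by
  obtain ⟨K, hK⟩ := exists_K (ε / 2) (by linarith)
  refine ⟨2 * 4 ^ K, by positivity, fun n => ?_⟩
  push_cast
  have h1 := V_sub_VK K (n + 2 * 4 ^ K)
  have h2 := V_sub_VK K n
  rw [VK_periodic] at h1
  calc |V (n + 2 * 4 ^ K) - V n| = |(V (n + 2 * 4 ^ K) - VK K n) - (V n - VK K n)| := by
        congr 1; ring
    _ ≤ |V (n + 2 * 4 ^ K) - VK K n| + |V n - VK K n| := abs_sub _ _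
    _ < ε := by linarith

/-- The eigenfunction. -/
noncomputable def psi (n : ℤ) : ℝ := Real.exp (-phi n)

lemma psi_eq (n : ℤ) : psi (n + 1) + psi (n - 1) + V n * psi n = 0 * psi n := by
  unfold psi V del
  have h1 : Real.exp (-phi (n + 1)) = Real.exp (-(phi (n + 1) - phi n)) * Real.exp (-phi n) := by
    rw [← Real.exp_add]; congr 1; ring
  have h2 : Real.exp (-phi (n - 1)) =
      Real.exp (phi (n - 1 + 1) - phi (n - 1)) * Real.exp (-phi n) := by
    rw [← Real.exp_add, show n - 1 + 1 = n by ring]; congr 1; ring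
  rw [h1, h2]; ring

lemma phi_lower (n : ℤ) (hn : n ≠ 0) : (n : ℝ) ^ 2 ≤ 16 * phi n ^ 4 := by
  have h1 : (1 : ℝ) ≤ |(n : ℝ)| := by
    have : (1 : ℤ) ≤ |n| := Int.one_le_abs hn
    exact_mod_cast this
  obtain ⟨k, hk1, hk2⟩ := exists_nat_pow_near h1 (by norm_num : (1 : ℝ) < 4)
  have h2 := phi_ge (k + 1) n
  rw [T_small (k + 1) n hk2.le] at h2
  have h3 : (0 : ℝ) ≤ (1 / 2 : ℝ) ^ (k + 1) * |(n : ℝ)| := by positivity
  have h4 : ((1 / 2 : ℝ) ^ (k + 1) * |(n : ℝ)|) ^ 2 ≤ phi n ^ 2 := by gcongr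
  have h5 : |(n : ℝ)| / 4 ≤ ((1 / 2 : ℝ) ^ (k + 1) * |(n : ℝ)|) ^ 2 := by
    have h6 : ((1 / 2 : ℝ) ^ (k + 1)) ^ 2 = 1 / 4 ^ (k + 1) := by
      have h60 : ((1 / 2 : ℝ)) ^ 2 = 1 / 4 := by norm_num
      rw [← pow_mul, mul_comm, pow_mul, h60, one_div, one_div, inv_pow]
    rw [mul_pow, h6]
    have h7 : (4 : ℝ) ^ (k + 1) ≤ 4 * |(n : ℝ)| := by
      rw [pow_succ]; linarith
    have h8 : 1 / (4 * |(n : ℝ)|) ≤ 1 / 4 ^ (k + 1) :=
      one_div_le_one_div_of_le (by positivity) h7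
    calc |(n : ℝ)| / 4 = 1 / (4 * |(n : ℝ)|) * |(n : ℝ)| ^ 2 := by
          field_simp
      _ ≤ 1 / 4 ^ (k + 1) * |(n : ℝ)| ^ 2 := by gcongr
  have h9 : |(n : ℝ)| / 4 ≤ phi n ^ 2 := h5.trans h4
  have h10 : (|(n : ℝ)| / 4) ^ 2 ≤ (phi n ^ 2) ^ 2 := by gcongr
  calc (n : ℝ) ^ 2 = 16 * (|(n : ℝ)| / 4) ^ 2 := by rw [div_pow, sq_abs]; ring
    _ ≤ 16 * (phi n ^ 2) ^ 2 := by gcongr
    _ = _ := by ring

lemma psi_summable : Summable fun n => psi n ^ 2 := by
  have hg : Summable (fun n : ℤ => 24 * (1 / (n : ℝ) ^ 2) + (if n = 0 then (1 : ℝ) else 0)) := by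
    apply Summable.add
    · exact (Real.summable_one_div_int_pow.mpr (by norm_num)).mul_left 24
    · exact (hasSum_ite_eq (0 : ℤ) (1 : ℝ)).summable
  refine Summable.of_nonneg_of_le (fun n => sq_nonneg _) (fun n => ?_) hg
  by_cases hn : n = 0
  · subst hn
    have h1 : psi 0 ≤ 1 := by
      unfold psi
      rw [Real.exp_le_one_iff]
      linarith [phi_nonneg 0]
    have h2 : 0 ≤ psi 0 := (Real.exp_pos _).le
    have h3 : psi 0 ^ 2 ≤ 1 := by nlinarith
    simpa using h3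
  · rw [if_neg hn, add_zero]
    have h1 := phi_lower n hn
    have h2 := Real.pow_div_factorial_le_exp (2 * phi n) (by linarith [phi_nonneg n]) 4
    have h3 : (n : ℝ) ^ 2 / 24 ≤ Real.exp (2 * phi n) := by
      refine le_trans ?_ h2
      have : (2 * phi n) ^ 4 / (Nat.factorial 4 : ℝ) = 16 * phi n ^ 4 / 24 := by
        norm_num [Nat.factorial]; ring
      rw [this]
      gcongr
    have h4 : psi n ^ 2 = 1 / Real.exp (2 * phi n) := by
      unfold psi
      rw [one_div, ← Real.exp_neg, ← Real.exp_nat_mul]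
      congr 1; push_cast; ring
    have hn2 : 0 < (n : ℝ) ^ 2 := by positivity
    rw [h4]
    calc 1 / Real.exp (2 * phi n) ≤ 1 / ((n : ℝ) ^ 2 / 24) :=
          one_div_le_one_div_of_le (by positivity) h3
      _ = 24 * (1 / (n : ℝ) ^ 2) := by field_simp

end Pool.Agent.Helper90.EvenPot
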