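import Pool.Agent.Helper90.Reflect

/-!
Every even almost periodic potential has an element of its hull without square summable
eigenfunctions.
-/

set_option autoImplicit false

open Filter Topology

namespace Pool.Agent.Helper90.Hull

open Reflect

/-- the accuracy required at stage `i` when the centre is `c` -/
noncomputable def r (i c : ℕ) : ℝ := (1 / ((i : ℝ) + 2)) ^ (c + 2)

lemma r_pos (i c : ℕ) : 0 < r i c := by unfold r; positivity

lemma r_le (i c : ℕ) : r i c ≤ 1 / ((i : ℝ) + 2) := by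
  unfold r
  have h1 : (1 : ℝ) / ((i : ℝ) + 2) ≤ 1 := by
    rw [div_le_one (by positivity)]
    have : (0 : ℝ) ≤ i := Nat.cast_nonneg i
    linarith
  calc (1 / ((i : ℝ) + 2)) ^ (c + 2) ≤ (1 / ((i : ℝ) + 2)) ^ 1 :=
        pow_le_pow_of_le_one (by positivity) h1 (by omega)
    _ = _ := pow_one _

lemma r_le_one (i c : ℕ) : r i c ≤ 1 := by
  refine le_trans (r_le i c) ?_
  rw [div_le_one (by positivity)]
  have : (0 : ℝ) ≤ i := Nat.cast_nonneg i
  linarith

lemma r_mono {i j c d : ℕ} (hij : i ≤ j) (hcd : c ≤ d) : r j d ≤ r i c := by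
  unfold r
  have h1 : (1 : ℝ) / ((i : ℝ) + 2) ≤ 1 := by
    rw [div_le_one (by positivity)]
    have : (0 : ℝ) ≤ i := Nat.cast_nonneg i
    linarith
  have h2 : (1 : ℝ) / ((j : ℝ) + 2) ≤ 1 / ((i : ℝ) + 2) := by
    apply one_div_le_one_div_of_le (by positivity)
    have : (i : ℝ) ≤ j := by exact_mod_cast hij
    linarith
  calc (1 / ((j : ℝ) + 2)) ^ (d + 2) ≤ (1 / ((i : ℝ) + 2)) ^ (d + 2) := by gcongr
    _ ≤ (1 / ((i : ℝ) + 2)) ^ (c + 2) := pow_le_pow_of_le_one (by positivity) h1 (by omega)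

theorem exists_hull (V : ℤ → ℝ) (B : ℝ) (hB : ∀ n, |V n| ≤ B)
    (hap : ∀ ε : ℝ, 0 < ε → ∃ p : ℕ, 0 < p ∧ ∀ n : ℤ, |V (n + p) - V n| < ε)
    (heven : ∀ n, V (-n) = V n) :
    ∃ W : ℤ → ℝ, (∀ n, |W n| ≤ B) ∧
      (∀ ε : ℝ, 0 < ε → ∃ k : ℤ, ∀ n : ℤ, |W n - V (n + k)| < ε) ∧
      (∀ (E : ℝ) (u : ℤ → ℝ), (Summable fun n => u n ^ 2) →
        (∀ n, u (n + 1) + u (n - 1) + W n * u n = E * u n) → u = 0) := by
  have hη : ∀ i c : ℕ, 0 < (1 / 2 : ℝ) ^ (i + 1) * r i c ^ 2 := fun i c => by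
    have := r_pos i c; positivity
  choose p hp0 hp using fun i c => hap _ (hη i c)
  obtain ⟨k, hk⟩ : ∃ k : ℕ → ℕ, ∀ i, k (i + 1) = k i + p i (k i) :=
    ⟨fun i => Nat.rec 0 (fun i c => c + p i c) i, fun i => rfl⟩
  have hkmono : StrictMono k := strictMono_nat_of_lt_succ (fun i => by
    rw [hk]; have := hp0 i (k i); omega)
  have hki : ∀ i, i ≤ k i := fun i => hkmono.id_le i
  have hstep : ∀ i : ℕ, ∀ n : ℤ, |V (n - (k (i + 1) : ℤ)) - V (n - (k i : ℤ))| ≤
      (1 / 2 : ℝ) ^ (i + 1) * r i (k i) ^ 2 := by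
    intro i n
    have h1 := hp i (k i) (n - (k (i + 1) : ℤ))
    have h2 : n - (k (i + 1) : ℤ) + (p i (k i) : ℤ) = n - k i := by
      rw [hk]; push_cast; ring
    rw [h2] at h1
    rw [abs_sub_comm]
    exact h1.le
  have htail : ∀ i d : ℕ, ∀ n : ℤ, |V (n - (k (i + d) : ℤ)) - V (n - (k i : ℤ))| ≤
      r i (k i) ^ 2 * (1 - (1 / 2 : ℝ) ^ d) := by
    intro i d n
    induction d with
    | zero => simp
    | succ d ih =>
      have h1 := hstep (i + d) n
      have h2 : r (i + d) (k (i + d)) ≤ r i (k i) :=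
        r_mono (by omega) (hkmono.monotone (by omega))
      have h3 : (1 / 2 : ℝ) ^ (i + d + 1) ≤ (1 / 2 : ℝ) ^ (d + 1) :=
        pow_le_pow_of_le_one (by norm_num) (by norm_num) (by omega)
      have h4 : (1 / 2 : ℝ) ^ (i + d + 1) * r (i + d) (k (i + d)) ^ 2 ≤
          (1 / 2 : ℝ) ^ (d + 1) * r i (k i) ^ 2 := by
        have := r_pos (i + d) (k (i + d))
        gcongr
      calc |V (n - (k (i + (d + 1)) : ℤ)) - V (n - (k i : ℤ))|
          = |(V (n - (k (i + d + 1) : ℤ)) - V (n - (k (i + d) : ℤ))) + (V (n - (k (i + d) : ℤ)) - V (n - (k i : ℤ)))| := by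
            congr 1; rw [← add_assoc]; ring
        _ ≤ |V (n - (k (i + d + 1) : ℤ)) - V (n - (k (i + d) : ℤ))| + |V (n - (k (i + d) : ℤ)) - V (n - (k i : ℤ))| :=
            abs_add_le _ _
        _ ≤ (1 / 2 : ℝ) ^ (d + 1) * r i (k i) ^ 2 + r i (k i) ^ 2 * (1 - (1 / 2 : ℝ) ^ d) := by
            linarith
        _ = _ := by rw [pow_succ]; ring
  have htail' : ∀ i j : ℕ, i ≤ j → ∀ n : ℤ, |V (n - (k j : ℤ)) - V (n - (k i : ℤ))| ≤ r i (k i) ^ 2 := by
    intro i j hij n
    obtain ⟨d, rfl⟩ := Nat.exists_eq_add_of_le hij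
    refine le_trans (htail i d n) ?_
    have h1 : 0 < (1 / 2 : ℝ) ^ d := by positivity
    have h2 := r_pos i (k i)
    have h3 : 0 < r i (k i) ^ 2 := by positivity
    nlinarith
  have hr0 : Tendsto (fun i : ℕ => 1 / ((i : ℝ) + 2)) atTop (𝓝 0) := by
    have h1 : Tendsto (fun i : ℕ => 1 / (((i + 1 : ℕ) : ℝ) + 1)) atTop (𝓝 0) :=
      (tendsto_one_div_add_atTop_nhds_zero_nat (𝕜 := ℝ)).comp (tendsto_add_atTop_nat 1)
    refine h1.congr (fun i => ?_)
    push_cast; congr 1; ring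
  have hrsq : ∀ i, r i (k i) ^ 2 ≤ 1 / ((i : ℝ) + 2) := by
    intro i
    have h1 := r_le i (k i)
    have h2 := r_le_one i (k i)
    have h3 := r_pos i (k i)
    nlinarith
  have hcauchy : ∀ n : ℤ, CauchySeq (fun i => V (n - (k i : ℤ))) := by
    intro n
    rw [Metric.cauchySeq_iff']
    intro ε hε
    obtain ⟨N, hN⟩ := ((tendsto_order.1 hr0).2 ε hε).exists
    refine ⟨N, fun j hj => ?_⟩
    rw [Real.dist_eq]
    exact lt_of_le_of_lt ((htail' N j hj n).trans (hrsq N)) hN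
  choose W hWlim using fun n => cauchySeq_tendsto_of_complete (hcauchy n)
  have hW : ∀ i : ℕ, ∀ n : ℤ, |W n - V (n - (k i : ℤ))| ≤ r i (k i) ^ 2 := by
    intro i n
    have h1 : Tendsto (fun j => |V (n - (k j : ℤ)) - V (n - (k i : ℤ))|) atTop (𝓝 |W n - V (n - (k i : ℤ))|) :=
      ((hWlim n).sub_const _).abs
    apply le_of_tendsto h1
    filter_upwards [eventually_ge_atTop i] with j hj
    exact htail' i j hj n
  have hWB : ∀ n, |W n| ≤ B := by
    intro n
    exact le_of_tendsto (hWlim n).abs (Eventually.of_forall fun j => hB _)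
  refine ⟨W, hWB, ?_, ?_⟩
  · intro ε hε
    obtain ⟨N, hN⟩ := ((tendsto_order.1 hr0).2 ε hε).exists
    refine ⟨-(k N : ℤ), fun n => ?_⟩
    have := hW N n
    rw [← sub_eq_add_neg]
    exact lt_of_le_of_lt (this.trans (hrsq N)) hN
  · intro E u hu heq
    obtain ⟨s, hs0, hs⟩ : ∃ s : ℝ, 0 ≤ s ∧ ∑' n, u n ^ 2 ≤ s ^ 2 := by
      refine ⟨Real.sqrt (∑' n, u n ^ 2), Real.sqrt_nonneg _, ?_⟩
      rw [Real.sq_sqrt (tsum_nonneg fun n => sq_nonneg _)]
    set K : ℝ := |E| + B with hKdef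
    have hB0 : 0 ≤ B := le_trans (abs_nonneg _) (hB 0)
    have hK : 0 ≤ K := by positivity
    have hKW : ∀ n, |E - W n| ≤ K := by
      intro n
      refine le_trans (abs_sub _ _) ?_
      have := hWB n
      rw [hKdef]; linarith
    have hsymm : ∀ i : ℕ, ∀ n : ℤ, |W (2 * k i - n) - W n| ≤ 2 * r i (k i) ^ 2 := by
      intro i n
      have h1 := hW i (2 * k i - n)
      have h2 := hW i n
      have h3 : V (2 * (k i : ℤ) - n - (k i : ℤ)) = V (n - (k i : ℤ)) := by
        rw [← heven (n - (k i : ℤ))]; congr 1; ring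
      rw [h3] at h1
      calc |W (2 * k i - n) - W n| = |(W (2 * k i - n) - V (n - (k i : ℤ))) - (W n - V (n - (k i : ℤ)))| := by
            congr 1; ring
        _ ≤ |W (2 * k i - n) - V (n - (k i : ℤ))| + |W n - V (n - (k i : ℤ))| := abs_sub _ _
        _ ≤ 2 * r i (k i) ^ 2 := by linarith
    have hmain : ∀ i : ℕ, K ≤ i →
        |u 0| ≤ 3 * s * (1 / ((i : ℝ) + 2)) + |u (2 * k i)| ∧
        |u (-1)| ≤ 3 * s * (1 / ((i : ℝ) + 2)) + |u (2 * k i + 1)| := by
      intro i hi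
      have h1 := reflect W u E K (k i) (r i (k i)) s (r_pos _ _).le (r_le_one _ _) hK hKW
        (hsymm i) hu hs0 hs heq
      have h2 : 3 * (K + 2) ^ (k i + 1) * r i (k i) * s ≤ 3 * s * (1 / ((i : ℝ) + 2)) := by
        have h3 : (K + 2) ^ (k i + 1) * r i (k i) ≤ 1 / ((i : ℝ) + 2) := by
          unfold r
          have h4 : (K + 2) ^ (k i + 1) ≤ ((i : ℝ) + 2) ^ (k i + 1) := by gcongr
          calc (K + 2) ^ (k i + 1) * (1 / ((i : ℝ) + 2)) ^ (k i + 2)
              ≤ ((i : ℝ) + 2) ^ (k i + 1) * (1 / ((i : ℝ) + 2)) ^ (k i + 2) := by gcongr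
            _ = 1 / ((i : ℝ) + 2) := by
                have h5 : (i : ℝ) + 2 ≠ 0 := by positivity
                rw [one_div, inv_pow]
                field_simp
                ring
        calc 3 * (K + 2) ^ (k i + 1) * r i (k i) * s
            = 3 * s * ((K + 2) ^ (k i + 1) * r i (k i)) := by ring
          _ ≤ _ := by gcongr
      exact ⟨by linarith [h1.1], by linarith [h1.2]⟩
    have hinj0 : Function.Injective (fun i : ℕ => 2 * (k i : ℤ)) := by
      intro a b hab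
      apply hkmono.injective
      have : 2 * (k a : ℤ) = 2 * (k b : ℤ) := hab
      omega
    have hinj1 : Function.Injective (fun i : ℕ => 2 * (k i : ℤ) + 1) := by
      intro a b hab
      apply hkmono.injective
      have : 2 * (k a : ℤ) + 1 = 2 * (k b : ℤ) + 1 := hab
      omega
    have hz : ∀ (x : ℝ) (g : ℕ → ℤ), Function.Injective g →
        (∀ i : ℕ, K ≤ i → |x| ≤ 3 * s * (1 / ((i : ℝ) + 2)) + |u (g i)|) → x = 0 := by
      intro x g hg hx
      have h1 : Tendsto (fun i : ℕ => 3 * s * (1 / ((i : ℝ) + 2)) + |u (g i)|) atTop (𝓝 0) := by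
        have h2 := (hr0.const_mul (3 * s)).add (tendsto_u u hu g hg).abs
        simpa using h2
      have h3 : |x| ≤ 0 := by
        apply ge_of_tendsto h1
        obtain ⟨N, hN⟩ := exists_nat_ge K
        filter_upwards [eventually_ge_atTop N] with i hi
        exact hx i (hN.trans (by exact_mod_cast hi))
      exact abs_eq_zero.mp (le_antisymm h3 (abs_nonneg _))
    have hu0 : u 0 = 0 := hz (u 0) _ hinj0 (fun i hi => (hmain i hi).1)
    have hu1 : u (-1) = 0 := hz (u (-1)) _ hinj1 (fun i hi => (hmain i hi).2)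
    -- propagate
    have hup : ∀ m : ℕ, u m = 0 ∧ u ((m : ℤ) - 1) = 0 := by
      intro m
      induction m with
      | zero => exact ⟨by simpa using hu0, by simpa using hu1⟩
      | succ m ih =>
        have h1 := heq m
        rw [ih.1, ih.2] at h1
        push_cast
        refine ⟨by simpa using h1, ?_⟩
        rw [show (m : ℤ) + 1 - 1 = m by ring]; exact ih.1
    have hdown : ∀ m : ℕ, u (-(m : ℤ)) = 0 ∧ u (-(m : ℤ) - 1) = 0 := by
      intro m
      induction m with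
      | zero => exact ⟨by simpa using hu0, by simpa using hu1⟩
      | succ m ih =>
        have h1 := heq (-(m : ℤ) - 1)
        rw [ih.2, show -(m : ℤ) - 1 + 1 = -m by ring, ih.1] at h1
        push_cast
        rw [show -((m : ℤ) + 1) = -m - 1 by ring]
        exact ⟨ih.2, by simpa using h1⟩
    funext n
    rcases le_total 0 n with hn | hn
    · obtain ⟨m, rfl⟩ := Int.eq_ofNat_of_zero_le hn
      exact (hup m).1
    · obtain ⟨m, hm⟩ := Int.eq_ofNat_of_zero_le (neg_nonneg.mpr hn)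
      have : n = -(m : ℤ) := by omega
      rw [this]; exact (hdown m).1

end Pool.Agent.Helper90.Hull
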