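import Mathlib

/-!
The reflection argument: the hull of an even almost periodic potential contains a potential whose
Schrodinger operator has no square summable eigenfunction.
-/

set_option autoImplicit false

open Filter Topology

namespace Pool.Agent.Helper90.Reflect

lemma le_of_sq_summable (u : ℤ → ℝ) (hu : Summable fun n => u n ^ 2) (s : ℝ) (hs : 0 ≤ s)
    (hT : ∑' n, u n ^ 2 ≤ s ^ 2) (n : ℤ) : |u n| ≤ s := by
  have h1 : u n ^ 2 ≤ s ^ 2 := le_trans (hu.le_tsum n (fun j _ => sq_nonneg _)) hT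
  exact abs_le_of_sq_le_sq h1 hs

lemma sum_le_of_inj (u : ℤ → ℝ) (hu : Summable fun n => u n ^ 2) (s : ℝ)
    (hT : ∑' n, u n ^ 2 ≤ s ^ 2) (g : ℕ → ℤ) (hg : Function.Injective g) (N : ℕ) :
    ∑ m ∈ Finset.range N, u (g m) ^ 2 ≤ s ^ 2 := by
  refine le_trans ?_ hT
  have : ∑ m ∈ Finset.range N, u (g m) ^ 2 = ∑ n ∈ (Finset.range N).map ⟨g, hg⟩, u n ^ 2 := by
    rw [Finset.sum_map]; rfl
  rw [this]
  exact hu.sum_le_tsum _ (fun j _ => sq_nonneg _)

lemma tendsto_u (u : ℤ → ℝ) (hu : Summable fun n => u n ^ 2) (g : ℕ → ℤ)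
    (hg : Function.Injective g) : Tendsto (fun m => u (g m)) atTop (𝓝 0) := by
  have h1 := hu.tendsto_cofinite_zero
  have h2 : Tendsto (fun m => u (g m) ^ 2) atTop (𝓝 0) := by
    rw [← Nat.cofinite_eq_atTop]
    exact h1.comp hg.tendsto_cofinite
  have h3 := (Real.continuous_sqrt.tendsto 0).comp h2
  rw [Real.sqrt_zero] at h3
  rw [tendsto_zero_iff_abs_tendsto_zero]
  refine h3.congr (fun m => ?_)
  simp [Real.sqrt_sq_eq_abs]

/-- Wronskian bound at the centre of an approximate reflection symmetry. -/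
lemma wronskian_bound (W u : ℤ → ℝ) (E : ℝ) (c : ℤ) (ρ s : ℝ)
    (hW : ∀ n, |W (2 * c - n) - W n| ≤ 2 * ρ ^ 2)
    (hu : Summable fun n => u n ^ 2) (hs : 0 ≤ s) (hT : ∑' n, u n ^ 2 ≤ s ^ 2)
    (heq : ∀ n, u (n + 1) + u (n - 1) + W n * u n = E * u n) :
    |u c| * |u (c + 1) - u (c - 1)| ≤ 2 * ρ ^ 2 * s ^ 2 := by
  set ω : ℤ → ℝ := fun n => u (n + 1) * u (2 * c - n) - u n * u (2 * c - n - 1) with hω
  have hstep : ∀ n, ω n - ω (n - 1) = (W (2 * c - n) - W n) * (u n * u (2 * c - n)) := by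
    intro n
    have e1 := heq n
    have e2 := heq (2 * c - n)
    simp only [hω]
    rw [show n - 1 + 1 = n by ring, show 2 * c - (n - 1) = 2 * c - n + 1 by ring,
      show 2 * c - n + 1 - 1 = 2 * c - n by ring]
    have e1' : u (n + 1) + u (n - 1) = (E - W n) * u n := by linarith
    have e2' : u (2 * c - n + 1) + u (2 * c - n - 1) = (E - W (2 * c - n)) * u (2 * c - n) := by
      linarith
    calc u (n + 1) * u (2 * c - n) - u n * u (2 * c - n - 1) -
        (u n * u (2 * c - n + 1) - u (n - 1) * u (2 * c - n))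
        = (u (n + 1) + u (n - 1)) * u (2 * c - n)
          - u n * (u (2 * c - n + 1) + u (2 * c - n - 1)) := by ring
      _ = _ := by rw [e1', e2']; ring
  have hbound : ∀ N : ℕ, |ω c| ≤ |ω (c + N)| +
      2 * ρ ^ 2 * ∑ m ∈ Finset.range N, |u (c + (m + 1)) * u (c - (m + 1))| := by
    intro N
    induction N with
    | zero => simp
    | succ N ih =>
      rw [Finset.sum_range_succ]
      have h1 := hstep (c + ((N : ℤ) + 1))
      rw [show c + ((N : ℤ) + 1) - 1 = c + N by ring,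
        show 2 * c - (c + ((N : ℤ) + 1)) = c - ((N : ℤ) + 1) by ring] at h1
      have h2 := hW (c + ((N : ℤ) + 1))
      rw [show 2 * c - (c + ((N : ℤ) + 1)) = c - ((N : ℤ) + 1) by ring] at h2
      have h3 : |ω (c + N)| ≤ |ω (c + ((N : ℤ) + 1))| +
          2 * ρ ^ 2 * |u (c + ((N : ℤ) + 1)) * u (c - ((N : ℤ) + 1))| := by
        have h4 : ω (c + N) = ω (c + ((N : ℤ) + 1)) -
          (W (c - ((N : ℤ) + 1)) - W (c + ((N : ℤ) + 1))) *
            (u (c + ((N : ℤ) + 1)) * u (c - ((N : ℤ) + 1))) := by linarith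
        rw [h4]
        refine le_trans (abs_sub _ _) ?_
        rw [abs_mul (W (c - ((N : ℤ) + 1)) - W (c + ((N : ℤ) + 1)))]
        gcongr
      push_cast
      linarith
  have hsum : ∀ N : ℕ, ∑ m ∈ Finset.range N, |u (c + (m + 1)) * u (c - (m + 1))| ≤ s ^ 2 := by
    intro N
    have h1 := sum_le_of_inj u hu s hT (fun m : ℕ => c + ((m : ℤ) + 1))
      (fun a b h => by simpa using h) N
    have h2 := sum_le_of_inj u hu s hT (fun m : ℕ => c - ((m : ℤ) + 1))
      (fun a b h => by simpa using h) N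
    calc ∑ m ∈ Finset.range N, |u (c + (m + 1)) * u (c - (m + 1))|
        ≤ ∑ m ∈ Finset.range N, (u (c + (m + 1)) ^ 2 + u (c - (m + 1)) ^ 2) / 2 := by
          apply Finset.sum_le_sum
          intro m _
          rw [abs_mul]
          have := sq_nonneg (|u (c + (m + 1))| - |u (c - (m + 1))|)
          rw [← sq_abs (u (c + (m + 1))), ← sq_abs (u (c - (m + 1)))]
          nlinarith
      _ = (∑ m ∈ Finset.range N, u (c + (m + 1)) ^ 2 + ∑ m ∈ Finset.range N, u (c - (m + 1)) ^ 2) / 2 := by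
          rw [← Finset.sum_add_distrib, Finset.sum_div]
      _ ≤ s ^ 2 := by linarith
  have hlim : Tendsto (fun N : ℕ => |ω (c + N)| + 2 * ρ ^ 2 * s ^ 2) atTop
      (𝓝 (0 + 2 * ρ ^ 2 * s ^ 2)) := by
    apply Tendsto.add _ tendsto_const_nhds
    have t1 := tendsto_u u hu (fun N : ℕ => c + N + 1) (fun a b h => by simpa using h)
    have t2 := tendsto_u u hu (fun N : ℕ => 2 * c - (c + N)) (fun a b h => by
      have : 2 * c - (c + (a : ℤ)) = 2 * c - (c + (b : ℤ)) := h
      omega)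
    have t3 := tendsto_u u hu (fun N : ℕ => c + N) (fun a b h => by simpa using h)
    have t4 := tendsto_u u hu (fun N : ℕ => 2 * c - (c + N) - 1) (fun a b h => by
      have : 2 * c - (c + (a : ℤ)) - 1 = 2 * c - (c + (b : ℤ)) - 1 := h
      omega)
    have t5 := (t1.mul t2).sub (t3.mul t4)
    simp only [mul_zero, sub_zero] at t5
    have := t5.abs
    simpa [hω] using this
  have hle : |ω c| ≤ 0 + 2 * ρ ^ 2 * s ^ 2 := by
    apply ge_of_tendsto' hlim
    intro N
    refine le_trans (hbound N) ?_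
    have := hsum N
    have h5 : 0 ≤ 2 * ρ ^ 2 := by positivity
    have := mul_le_mul_of_nonneg_left this h5
    linarith
  have hωc : ω c = u c * (u (c + 1) - u (c - 1)) := by
    simp only [hω]
    rw [show 2 * c - c = c by ring]; ring
  rw [hωc, abs_mul] at hle
  linarith

lemma reflect (W u : ℤ → ℝ) (E K : ℝ) (c : ℕ) (ρ s : ℝ) (hρ : 0 ≤ ρ) (hρ1 : ρ ≤ 1) (hK : 0 ≤ K)
    (hKW : ∀ n, |E - W n| ≤ K)
    (hW : ∀ n, |W (2 * c - n) - W n| ≤ 2 * ρ ^ 2)
    (hu : Summable fun n => u n ^ 2) (hs : 0 ≤ s) (hT : ∑' n, u n ^ 2 ≤ s ^ 2)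
    (heq : ∀ n, u (n + 1) + u (n - 1) + W n * u n = E * u n) :
    |u 0| ≤ 3 * (K + 2) ^ (c + 1) * ρ * s + |u (2 * c)| ∧
    |u (-1)| ≤ 3 * (K + 2) ^ (c + 1) * ρ * s + |u (2 * c + 1)| := by
  have hx : 0 ≤ ρ * s := by positivity
  have hwr := wronskian_bound W u E c ρ s hW hu hs hT heq
  have hcase : |u c| ≤ 2 * (ρ * s) ∨ |u ((c : ℤ) + 1) - u ((c : ℤ) - 1)| ≤ 2 * (ρ * s) := by
    by_contra hcon
    push Not at hcon
    have := mul_lt_mul'' hcon.1 hcon.2 (by positivity) (by positivity)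
    nlinarith
  have hc := heq c
  have hmain : ∃ σ : ℝ, |σ| = 1 ∧ |u c + σ * u (2 * c - c)| ≤ (2 * K + 4) * (ρ * s) ∧
      |u ((c : ℤ) - 1) + σ * u (2 * c - ((c : ℤ) - 1))| ≤ (2 * K + 4) * (ρ * s) := by
    rcases hcase with h | h
    · refine ⟨1, by simp, ?_, ?_⟩
      · rw [show 2 * (c : ℤ) - c = c by ring, one_mul]
        calc |u c + u c| ≤ |u c| + |u c| := abs_add_le _ _
          _ ≤ 4 * (ρ * s) := by linarith
          _ ≤ (2 * K + 4) * (ρ * s) := by nlinarith
      · rw [show 2 * (c : ℤ) - (c - 1) = c + 1 by ring, one_mul]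
        have : u ((c : ℤ) - 1) + u ((c : ℤ) + 1) = (E - W c) * u c := by linarith
        rw [this, abs_mul]
        calc |E - W c| * |u c| ≤ K * (2 * (ρ * s)) := by
              apply mul_le_mul (hKW _) h (abs_nonneg _) hK
          _ ≤ (2 * K + 4) * (ρ * s) := by nlinarith
    · refine ⟨-1, by simp, ?_, ?_⟩
      · rw [show 2 * (c : ℤ) - c = c by ring]
        have : u (c : ℤ) + -1 * u (c : ℤ) = 0 := by ring
        rw [this, abs_zero]; positivity
      · rw [show 2 * (c : ℤ) - (c - 1) = c + 1 by ring]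
        have : u ((c : ℤ) - 1) + -1 * u ((c : ℤ) + 1) = -(u ((c : ℤ) + 1) - u ((c : ℤ) - 1)) := by
          ring
        rw [this, abs_neg]
        nlinarith
  obtain ⟨σ, hσ, hb0, hb1⟩ := hmain
  set v : ℤ → ℝ := fun n => u n + σ * u (2 * c - n) with hv
  set e : ℝ := 2 * ρ ^ 2 * s with he
  have he0 : 0 ≤ e := by positivity
  have hrec : ∀ n, |v (n - 1)| ≤ K * |v n| + |v (n + 1)| + e := by
    intro n
    have e1 := heq n
    have e2 := heq (2 * c - n)
    have e3 : v (n - 1) = (E - W n) * v n - v (n + 1) +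
        σ * ((W n - W (2 * c - n)) * u (2 * c - n)) := by
      simp only [hv]
      rw [show 2 * (c : ℤ) - (n - 1) = 2 * c - n + 1 by ring,
        show 2 * (c : ℤ) - (n + 1) = 2 * c - n - 1 by ring]
      have e1' : u (n - 1) = (E - W n) * u n - u (n + 1) := by linarith
      have e2' : u (2 * c - n + 1) = (E - W (2 * c - n)) * u (2 * c - n) - u (2 * c - n - 1) := by
        linarith
      rw [e1', e2']; ring
    have e4 : |σ * ((W n - W (2 * c - n)) * u (2 * c - n))| ≤ e := by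
      rw [abs_mul, hσ, one_mul, abs_mul, abs_sub_comm]
      have := hW n
      have h6 := le_of_sq_summable u hu s hs hT (2 * c - n)
      rw [he]
      apply mul_le_mul this h6 (abs_nonneg _) (by positivity)
    rw [e3]
    calc |(E - W n) * v n - v (n + 1) + σ * ((W n - W (2 * c - n)) * u (2 * c - n))|
        ≤ |(E - W n) * v n - v (n + 1)| + |σ * ((W n - W (2 * c - n)) * u (2 * c - n))| :=
          abs_add_le _ _
      _ ≤ |(E - W n) * v n| + |v (n + 1)| + e := by
          gcongr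
          exact abs_sub _ _
      _ ≤ K * |v n| + |v (n + 1)| + e := by
          rw [abs_mul]
          gcongr
          exact hKW n
  have hA : ∀ m : ℕ, |v (c - m)| + e ≤ (K + 2) ^ m * ((2 * K + 4) * (ρ * s) + e) ∧
      |v (c - m - 1)| + e ≤ (K + 2) ^ m * ((2 * K + 4) * (ρ * s) + e) := by
    intro m
    induction m with
    | zero =>
      simp only [Nat.cast_zero, sub_zero, pow_zero, one_mul]
      exact ⟨by linarith, by linarith⟩
    | succ m ih =>
      obtain ⟨ih1, ih2⟩ := ih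
      set M := (K + 2) ^ m * ((2 * K + 4) * (ρ * s) + e) with hM
      have hM2 : (K + 2) ^ (m + 1) * ((2 * K + 4) * (ρ * s) + e) = (K + 2) * M := by
        rw [hM]; ring
      rw [hM2]
      have a1 : 0 ≤ |v (c - m)| := abs_nonneg _
      have a2 : 0 ≤ |v (c - m - 1)| := abs_nonneg _
      have a3 : 0 ≤ M := by linarith
      constructor
      · push_cast
        rw [show (c : ℤ) - ((m : ℤ) + 1) = c - m - 1 by ring]
        nlinarith
      · push_cast
        rw [show (c : ℤ) - ((m : ℤ) + 1) - 1 = c - m - 1 - 1 by ring]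
        have h7 := hrec ((c : ℤ) - m - 1)
        rw [show (c : ℤ) - m - 1 + 1 = c - m by ring] at h7
        have h8 : K * |v (c - m - 1)| ≤ K * (M - e) := by
          apply mul_le_mul_of_nonneg_left _ hK
          linarith
        nlinarith
  have hfin := hA c
  rw [sub_self] at hfin
  have hbd : (K + 2) ^ c * ((2 * K + 4) * (ρ * s) + e) ≤ 3 * (K + 2) ^ (c + 1) * ρ * s := by
    have h9 : (2 * K + 4) * (ρ * s) + e ≤ 3 * (K + 2) * (ρ * s) := by
      rw [he]
      have : ρ ^ 2 * s ≤ ρ * s := by nlinarith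
      nlinarith
    calc (K + 2) ^ c * ((2 * K + 4) * (ρ * s) + e) ≤ (K + 2) ^ c * (3 * (K + 2) * (ρ * s)) := by
          gcongr
      _ = _ := by ring
  have hv0 : v 0 = u 0 + σ * u (2 * c) := by simp [hv]
  have hv1 : v (-1) = u (-1) + σ * u (2 * c + 1) := by simp [hv]
  constructor
  · have h10 : |v 0| ≤ 3 * (K + 2) ^ (c + 1) * ρ * s := by linarith [hfin.1]
    have h11 : u 0 = v 0 - σ * u (2 * c) := by rw [hv0]; ring
    rw [h11]
    refine le_trans (abs_sub _ _) ?_
    rw [abs_mul, hσ, one_mul]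
    linarith
  · have h10 : |v (-1)| ≤ 3 * (K + 2) ^ (c + 1) * ρ * s := by
      have := hfin.2
      rw [zero_sub] at this
      linarith
    have h11 : u (-1) = v (-1) - σ * u (2 * c + 1) := by rw [hv1]; ring
    rw [h11]
    refine le_trans (abs_sub _ _) ?_
    rw [abs_mul, hσ, one_mul]
    linarith

end Pool.Agent.Helper90.Reflect
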