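import Pool.Agent.Helper90.SpecMeasure

/-!
Discrete Schrodinger operators on `ℓ²(ℤ)` with bounded real potential; existence of the
spectral measure of `δ₀` and `δ₁`; atoms and square-summable eigenfunctions.
-/

set_option autoImplicit false

open MeasureTheory Filter Topology
open scoped InnerProductSpace

namespace Pool.Agent.Helper90.Schrod

noncomputable abbrev L2 := lp (fun _ : ℤ => ℂ) 2

lemma memlp_shift (f : L2) (k : ℤ) : Memℓp (fun n : ℤ => f (n + k)) 2 := by
  apply memℓp_gen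
  have h := (lp.memℓp f).summable (by norm_num : 0 < (2 : ENNReal).toReal)
  exact (Equiv.addRight k).summable_iff.mpr h

lemma memlp_mul (V : ℤ → ℝ) (C : ℝ) (hV : ∀ n, |V n| ≤ C) (f : L2) :
    Memℓp (fun n => (V n : ℂ) * f n) 2 := by
  apply memℓp_gen
  have h := (lp.memℓp f).summable (by norm_num : 0 < (2 : ENNReal).toReal)
  have h2 := h.mul_left (C ^ (2 : ENNReal).toReal)
  refine Summable.of_nonneg_of_le (fun n => by positivity) (fun n => ?_) h2
  have hC : 0 ≤ C := le_trans (abs_nonneg _) (hV 0)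
  rw [norm_mul, ← Real.mul_rpow hC (norm_nonneg _)]
  apply Real.rpow_le_rpow (by positivity) _ (by norm_num)
  have : ‖(V n : ℂ)‖ ≤ C := by
    rw [Complex.norm_real, Real.norm_eq_abs]; exact hV n
  gcongr

/-- shift -/
noncomputable def sh (k : ℤ) : L2 →ₗ[ℂ] L2 where
  toFun f := ⟨fun n => f (n + k), memlp_shift f k⟩
  map_add' f g := by ext n; simp
  map_smul' c f := by ext n; simp

/-- multiplication by the potential -/
noncomputable def mulV (V : ℤ → ℝ) (C : ℝ) (hV : ∀ n, |V n| ≤ C) : L2 →ₗ[ℂ] L2 where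
  toFun f := ⟨fun n => (V n : ℂ) * f n, memlp_mul V C hV f⟩
  map_add' f g := by ext n; simp [mul_add]
  map_smul' c f := by ext n; simp; ring

@[simp] lemma sh_apply (k : ℤ) (f : L2) (n : ℤ) : sh k f n = f (n + k) := rfl

@[simp] lemma mulV_apply (V : ℤ → ℝ) (C : ℝ) (hV : ∀ n, |V n| ≤ C) (f : L2) (n : ℤ) :
    mulV V C hV f n = (V n : ℂ) * f n := rfl

/-- The Schrodinger operator as a linear map. -/
noncomputable def HL (V : ℤ → ℝ) (C : ℝ) (hV : ∀ n, |V n| ≤ C) : L2 →ₗ[ℂ] L2 :=
  sh 1 + sh (-1) + mulV V C hV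

lemma inner_sh (k : ℤ) (f g : L2) : inner ℂ (sh k f) g = inner ℂ f (sh (-k) g) := by
  rw [lp.inner_eq_tsum, lp.inner_eq_tsum]
  rw [← (Equiv.addRight k).tsum_eq (fun m => inner ℂ (f m) ((sh (-k) g) m))]
  congr 1
  ext n
  simp

lemma inner_mulV (V : ℤ → ℝ) (C : ℝ) (hV : ∀ n, |V n| ≤ C) (f g : L2) :
    inner ℂ (mulV V C hV f) g = inner ℂ f (mulV V C hV g) := by
  rw [lp.inner_eq_tsum, lp.inner_eq_tsum]
  congr 1
  ext n
  simp
  ring

lemma HL_symm (V : ℤ → ℝ) (C : ℝ) (hV : ∀ n, |V n| ≤ C) : (HL V C hV).IsSymmetric := by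
  intro f g
  unfold HL
  simp only [LinearMap.add_apply, inner_add_left, inner_add_right, inner_sh, inner_mulV]
  rw [neg_neg]
  ring

/-- The Schrodinger operator as a bounded operator. -/
noncomputable def Hop (V : ℤ → ℝ) (C : ℝ) (hV : ∀ n, |V n| ≤ C) : L2 →L[ℂ] L2 :=
  ⟨HL V C hV, (HL_symm V C hV).continuous⟩

lemma Hop_apply (V : ℤ → ℝ) (C : ℝ) (hV : ∀ n, |V n| ≤ C) (f : L2) (n : ℤ) :
    Hop V C hV f n = f (n + 1) + f (n + -1) + (V n : ℂ) * f n := rfl

lemma Hop_sa (V : ℤ → ℝ) (C : ℝ) (hV : ∀ n, |V n| ≤ C) : IsSelfAdjoint (Hop V C hV) := by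
  rw [ContinuousLinearMap.isSelfAdjoint_iff_isSymmetric]
  exact HL_symm V C hV

lemma pow_single (V : ℤ → ℝ) (C : ℝ) (hV : ∀ n, |V n| ≤ C) (j : ℤ) (k : ℕ) (n : ℤ) :
    ((Hop V C hV) ^ k) (lp.single 2 j (1 : ℂ)) n =
      (((fun ψ : ℤ → ℝ => fun n : ℤ => ψ (n + 1) + ψ (n - 1) + V n * ψ n)^[k]
        (fun m : ℤ => if m = j then (1 : ℝ) else 0)) n : ℂ) := by
  induction k generalizing n with
  | zero =>
    simp only [pow_zero, one_apply_eq_self, Function.iterate_zero, id_eq]
    by_cases h : n = j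
    · subst h; simp
    · rw [lp.single_apply_ne _ _ _ h]; simp [h]
  | succ k ih =>
    rw [pow_succ', mul_apply_eq_comp, Hop_apply, Function.iterate_succ_apply', ih, ih, ih]
    push_cast
    rfl

lemma inner_single_pow (V : ℤ → ℝ) (C : ℝ) (hV : ∀ n, |V n| ≤ C) (j : ℤ) (k : ℕ) :
    (inner ℂ (lp.single 2 j (1 : ℂ) : L2) (((Hop V C hV) ^ k) (lp.single 2 j (1 : ℂ)))).re =
      ((fun ψ : ℤ → ℝ => fun n : ℤ => ψ (n + 1) + ψ (n - 1) + V n * ψ n)^[k]
        (fun m : ℤ => if m = j then (1 : ℝ) else 0)) j := by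
  rw [lp.inner_single_left]
  simp only [RCLike.inner_apply, map_one, mul_one]
  rw [pow_single, Complex.ofReal_re]

/-- Existence of a finite measure with the moments of `δ₀` and `δ₁`, whose atoms come from
and give square summable eigenfunctions. -/
theorem exists_measure (V : ℤ → ℝ) (C : ℝ) (hV : ∀ n, |V n| ≤ C) :
    ∃ μ : Measure ℝ, IsFiniteMeasure μ ∧
      (∀ k : ℕ, Integrable (fun x : ℝ => x ^ k) μ ∧
          ∫ x, x ^ k ∂μ =
            ((fun ψ : ℤ → ℝ => fun n : ℤ => ψ (n + 1) + ψ (n - 1) + V n * ψ n)^[k]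
                (fun m : ℤ => if m = 0 then (1 : ℝ) else 0)) 0 +
            ((fun ψ : ℤ → ℝ => fun n : ℤ => ψ (n + 1) + ψ (n - 1) + V n * ψ n)^[k]
                (fun m : ℤ => if m = 1 then (1 : ℝ) else 0)) 1) ∧
      (∀ (E : ℝ) (u : ℤ → ℝ), (Summable fun n => u n ^ 2) →
        (∀ n, u (n + 1) + u (n - 1) + V n * u n = E * u n) → u 0 ≠ 0 → μ {E} ≠ 0) ∧
      (∀ E : ℝ, μ {E} ≠ 0 → ∃ u : ℤ → ℝ, (Summable fun n => u n ^ 2) ∧
        (∀ n, u (n + 1) + u (n - 1) + V n * u n = E * u n) ∧ u ≠ 0) := by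
  set T := Hop V C hV with hT
  have hsa := Hop_sa V C hV
  refine ⟨Spec.mu T hsa (lp.single 2 0 (1 : ℂ)) + Spec.mu T hsa (lp.single 2 1 (1 : ℂ)),
    inferInstance, ?_, ?_, ?_⟩
  · intro k
    have i0 := Spec.integrable_mu T hsa (lp.single 2 0 (1 : ℂ)) (fun x => x ^ k) (by fun_prop)
    have i1 := Spec.integrable_mu T hsa (lp.single 2 1 (1 : ℂ)) (fun x => x ^ k) (by fun_prop)
    refine ⟨i0.add_measure i1, ?_⟩
    rw [integral_add_measure i0 i1, Spec.integral_mu_pow, Spec.integral_mu_pow, hT,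
      inner_single_pow, inner_single_pow]
  · intro E u hu hEu h0
    have hmem : Memℓp (fun n => (u n : ℂ)) 2 := by
      apply memℓp_gen
      simp only [Complex.norm_real, ENNReal.toReal_ofNat, Real.rpow_ofNat, Real.norm_eq_abs, sq_abs]
      exact hu
    let U : L2 := ⟨fun n => (u n : ℂ), hmem⟩
    have hU : T U = (E : ℂ) • U := by
      ext n
      rw [hT, Hop_apply]
      have := hEu n
      change (u (n + 1) : ℂ) + (u (n + -1) : ℂ) + (V n : ℂ) * (u n : ℂ) = (E : ℂ) * (u n : ℂ)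
      rw [show n + -1 = n - 1 from rfl]
      exact_mod_cast this
    have hne : inner ℂ U (lp.single 2 0 (1 : ℂ)) ≠ 0 := by
      rw [lp.inner_single_right]
      simp only [RCLike.inner_apply, one_mul]
      change (starRingEnd ℂ) (u 0 : ℂ) ≠ 0
      simpa using h0
    have := Spec.atom_of_eigenvector T hsa _ E U hU hne
    intro hz
    rw [Measure.add_apply] at hz
    exact this (by simpa using (add_eq_zero.mp hz).1)
  · intro E hE
    rw [Measure.add_apply] at hE
    have h : Spec.mu T hsa (lp.single 2 0 (1 : ℂ)) {E} ≠ 0 ∨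
        Spec.mu T hsa (lp.single 2 1 (1 : ℂ)) {E} ≠ 0 := by
      by_contra hcon
      push Not at hcon
      exact hE (by rw [hcon.1, hcon.2, add_zero])
    have h2 : ∃ w : L2, w ≠ 0 ∧ T w = (E : ℂ) • w := by
      rcases h with h | h
      · exact Spec.eigenvector_of_atom T hsa _ E h
      · exact Spec.eigenvector_of_atom T hsa _ E h
    obtain ⟨w, hw0, hw⟩ := h2
    have hsum : Summable fun n => ‖w n‖ ^ 2 := by
      have := (lp.memℓp w).summable (by norm_num : 0 < (2 : ENNReal).toReal)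
      simpa using this
    have heq : ∀ n, w (n + 1) + w (n - 1) + (V n : ℂ) * w n = (E : ℂ) * w n := by
      intro n
      have h3 : (T w) n = ((E : ℂ) • w) n := by rw [hw]
      rw [hT, Hop_apply, lp.coeFn_smul, Pi.smul_apply, smul_eq_mul] at h3
      exact h3
    by_cases hre : (fun n => (w n).re) = 0
    · refine ⟨fun n => (w n).im, ?_, ?_, ?_⟩
      · refine Summable.of_nonneg_of_le (fun n => by positivity) (fun n => ?_) hsum
        rw [← sq_abs]
        gcongr
        exact Complex.abs_im_le_norm _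
      · intro n
        have := congrArg Complex.im (heq n)
        simpa using this
      · intro him
        apply hw0
        ext n
        apply Complex.ext
        · simpa using congrFun hre n
        · simpa using congrFun him n
    · refine ⟨fun n => (w n).re, ?_, ?_, hre⟩
      · refine Summable.of_nonneg_of_le (fun n => by positivity) (fun n => ?_) hsum
        rw [← sq_abs]
        gcongr
        exact Complex.abs_re_le_norm _
      · intro n
        have := congrArg Complex.re (heq n)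
        simpa using this

end Pool.Agent.Helper90.Schrod
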