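import Mathlib

/-!
Spectral measures of a bounded self-adjoint operator: moments, and the correspondence between
atoms and eigenvectors.
-/

set_option autoImplicit false

open MeasureTheory Filter Topology
open scoped InnerProductSpace CompactlySupported

namespace Pool.Agent.Helper90.Spec

variable {H : Type*} [NormedAddCommGroup H] [InnerProductSpace ℂ H] [CompleteSpace H]

lemma inner_star_mul (A : H →L[ℂ] H) (v : H) :
    inner ℂ v ((star A * A) v) = ((‖A v‖ ^ 2 : ℝ) : ℂ) := by
  rw [mul_apply_eq_comp, ContinuousLinearMap.star_eq_adjoint,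
    ContinuousLinearMap.adjoint_inner_right, inner_self_eq_norm_sq_to_K]
  norm_cast

lemma star_cfcHom (T : H →L[ℂ] H) (hT : IsSelfAdjoint T) (h : C(spectrum ℝ T, ℝ)) :
    star (cfcHom (R := ℝ) (a := T) hT h) = cfcHom (R := ℝ) (a := T) hT h := by
  rw [← map_star]; congr 1

lemma inner_cfcHom_mul (T : H →L[ℂ] H) (hT : IsSelfAdjoint T) (v : H) (h : C(spectrum ℝ T, ℝ)) :
    (inner ℂ v ((cfcHom (R := ℝ) (a := T) hT (h * h)) v)).re =
      ‖cfcHom (R := ℝ) (a := T) hT h v‖ ^ 2 := by
  have : cfcHom (R := ℝ) (a := T) hT (h * h) =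
      star (cfcHom (R := ℝ) (a := T) hT h) * (cfcHom (R := ℝ) (a := T) hT h) := by
    rw [star_cfcHom, map_mul]
  rw [this, inner_star_mul, Complex.ofReal_re]

/-- The positive functional `f ↦ ⟨v, f(T) v⟩`. -/
noncomputable def Lam (T : H →L[ℂ] H) (hT : IsSelfAdjoint T) (v : H) :
    C_c(spectrum ℝ T, ℝ) →ₚ[ℝ] ℝ where
  toFun f := (inner ℂ v ((cfcHom (R := ℝ) (a := T) hT) f.toContinuousMap v)).re
  map_add' f g := by
    have : (f + g).toContinuousMap = f.toContinuousMap + g.toContinuousMap := rfl
    rw [this, map_add]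
    simp
  map_smul' c f := by
    have : (c • f).toContinuousMap = c • f.toContinuousMap := rfl
    rw [this, map_smul]
    simp
  monotone' f g hfg := by
    have h1 : ∃ h : C(spectrum ℝ T, ℝ), g.toContinuousMap = f.toContinuousMap + h * h := by
      refine ⟨⟨fun x => Real.sqrt (g x - f x), by fun_prop⟩, ?_⟩
      ext x
      have : f x ≤ g x := hfg x
      simp only [ContinuousMap.add_apply, ContinuousMap.mul_apply, ContinuousMap.coe_mk]
      rw [Real.mul_self_sqrt (by linarith)]
      change g x = f x + _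
      ring
    obtain ⟨h, hh⟩ := h1
    have h2 : (inner ℂ v ((cfcHom (R := ℝ) (a := T) hT) g.toContinuousMap v)).re =
      (inner ℂ v ((cfcHom (R := ℝ) (a := T) hT) f.toContinuousMap v)).re +
      ‖cfcHom (R := ℝ) (a := T) hT h v‖ ^ 2 := by
      rw [← inner_cfcHom_mul, hh, map_add]
      simp
    change (inner ℂ v ((cfcHom (R := ℝ) (a := T) hT) f.toContinuousMap v)).re ≤
      (inner ℂ v ((cfcHom (R := ℝ) (a := T) hT) g.toContinuousMap v)).re
    rw [h2]
    have := sq_nonneg ‖cfcHom (R := ℝ) (a := T) hT h v‖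
    linarith

instance compX (T : H →L[ℂ] H) : CompactSpace (spectrum ℝ T) :=
  isCompact_iff_compactSpace.mp (spectrum.isCompact T)

/-- The spectral measure on the real line. -/
noncomputable def mu (T : H →L[ℂ] H) (hT : IsSelfAdjoint T) (v : H) : Measure ℝ :=
  (RealRMK.rieszMeasure (Lam T hT v)).map Subtype.val

instance (T : H →L[ℂ] H) (hT : IsSelfAdjoint T) (v : H) : IsFiniteMeasure (mu T hT v) := by
  unfold mu; infer_instance

/-- restriction of a continuous function to the spectrum -/
def res (T : H →L[ℂ] H) (F : ℝ → ℝ) (hF : Continuous F) : C(spectrum ℝ T, ℝ) :=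
  ⟨fun x => F x.1, by fun_prop⟩

lemma integral_mu (T : H →L[ℂ] H) (hT : IsSelfAdjoint T) (v : H) (F : ℝ → ℝ)
    (hF : Continuous F) :
    ∫ x, F x ∂(mu T hT v) = (inner ℂ v (cfcHom (R := ℝ) (a := T) hT (res T F hF) v)).re := by
  unfold mu
  rw [integral_map (by fun_prop) hF.aestronglyMeasurable]
  exact RealRMK.integral_rieszMeasure (Lam T hT v)
    ⟨res T F hF, HasCompactSupport.of_compactSpace _⟩

lemma integrable_mu (T : H →L[ℂ] H) (hT : IsSelfAdjoint T) (v : H) (F : ℝ → ℝ)
    (hF : Continuous F) : Integrable F (mu T hT v) := by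
  unfold mu
  rw [integrable_map_measure hF.aestronglyMeasurable (by fun_prop)]
  have hc : Continuous (F ∘ (Subtype.val : spectrum ℝ T → ℝ)) := by fun_prop
  exact hc.integrable_of_hasCompactSupport (HasCompactSupport.of_compactSpace _)

lemma integral_mu_pow (T : H →L[ℂ] H) (hT : IsSelfAdjoint T) (v : H) (k : ℕ) :
    ∫ x, x ^ k ∂(mu T hT v) = (inner ℂ v ((T ^ k) v)).re := by
  rw [integral_mu T hT v (fun x => x ^ k) (by fun_prop)]
  congr 3
  have : res T (fun x => x ^ k) (by fun_prop) =
      ((ContinuousMap.restrict (spectrum ℝ T) (ContinuousMap.id ℝ)) ^ k) := by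
    ext x; simp [res]
  rw [this, map_pow, cfcHom_id]

lemma integral_mu_sq (T : H →L[ℂ] H) (hT : IsSelfAdjoint T) (v : H) (F : ℝ → ℝ)
    (hF : Continuous F) :
    ∫ x, F x ^ 2 ∂(mu T hT v) = ‖cfcHom (R := ℝ) (a := T) hT (res T F hF) v‖ ^ 2 := by
  rw [integral_mu T hT v (fun x => F x ^ 2) (by fun_prop), ← inner_cfcHom_mul]
  congr 4
  ext x; simp [res, sq]

/-! bump functions -/

/-- tent function at `E` of width `1/n` -/
noncomputable def G (E : ℝ) (n : ℕ) (x : ℝ) : ℝ := max 0 (1 - n * |x - E|)

lemma G_cont (E : ℝ) (n : ℕ) : Continuous (G E n) := by unfold G; fun_prop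

lemma G_nonneg (E : ℝ) (n : ℕ) (x : ℝ) : 0 ≤ G E n x := le_max_left _ _

lemma G_le_one (E : ℝ) (n : ℕ) (x : ℝ) : G E n x ≤ 1 := by
  unfold G
  apply max_le (by norm_num)
  have : 0 ≤ (n : ℝ) * |x - E| := by positivity
  linarith

lemma G_anti (E : ℝ) {n m : ℕ} (h : n ≤ m) (x : ℝ) : G E m x ≤ G E n x := by
  unfold G
  apply max_le_max le_rfl
  have : (n : ℝ) * |x - E| ≤ (m : ℝ) * |x - E| := by gcongr
  linarith

lemma G_self (E : ℝ) (n : ℕ) : G E n E = 1 := by simp [G]

lemma G_mul_le (E : ℝ) (n : ℕ) (hn : 0 < n) (x : ℝ) : ((x - E) * G E n x) ^ 2 ≤ (1 / n) ^ 2 := by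
  have hn' : (0 : ℝ) < n := by exact_mod_cast hn
  rw [sq_le_sq, abs_mul, abs_of_nonneg (G_nonneg E n x), abs_of_nonneg (by positivity : (0:ℝ) ≤ 1 / n)]
  by_cases hx : 1 / n ≤ |x - E|
  · have : G E n x = 0 := by
      unfold G
      apply max_eq_left
      have : 1 ≤ (n : ℝ) * |x - E| := by
        rw [div_le_iff₀ hn'] at hx
        linarith
      linarith
    rw [this]; simp
  · push Not at hx
    calc |x - E| * G E n x ≤ 1 / n * 1 :=
          mul_le_mul hx.le (G_le_one E n x) (G_nonneg E n x) (by positivity)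
      _ = 1 / n := by ring

lemma G_tendsto (E x : ℝ) : Tendsto (fun n => G E n x) atTop (𝓝 (({E} : Set ℝ).indicator 1 x)) := by
  by_cases hx : x = E
  · subst hx
    simp only [G_self, Set.mem_singleton_iff, Set.indicator_of_mem, Pi.one_apply]
    exact tendsto_const_nhds
  · have hpos : 0 < |x - E| := abs_pos.mpr (sub_ne_zero.mpr hx)
    rw [Set.indicator_of_notMem (by simpa using hx)]
    apply tendsto_const_nhds.congr'
    obtain ⟨N, hN⟩ := exists_nat_gt (1 / |x - E|)
    filter_upwards [eventually_ge_atTop N] with n hn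
    unfold G
    symm
    apply max_eq_left
    have h1 : 1 / |x - E| < n := lt_of_lt_of_le hN (by exact_mod_cast hn)
    rw [div_lt_iff₀ hpos] at h1
    linarith

lemma tendsto_integral_G (μ : Measure ℝ) [IsFiniteMeasure μ] (E : ℝ) :
    Tendsto (fun n => ∫ x, G E n x ∂μ) atTop (𝓝 (μ.real {E})) := by
  have h1 : μ.real {E} = ∫ x, ({E} : Set ℝ).indicator (1 : ℝ → ℝ) x ∂μ := by
    rw [integral_indicator_one (measurableSet_singleton E)]
  rw [h1]
  apply tendsto_integral_of_dominated_convergence (fun _ => (1 : ℝ))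
  · intro n; exact (G_cont E n).aestronglyMeasurable
  · exact integrable_const _
  · intro n
    filter_upwards with x
    rw [Real.norm_eq_abs, abs_of_nonneg (G_nonneg E n x)]
    exact G_le_one E n x
  · filter_upwards with x
    exact G_tendsto E x

lemma integral_G_ge (μ : Measure ℝ) [IsFiniteMeasure μ] (E : ℝ) (n : ℕ) :
    μ.real {E} ≤ ∫ x, G E n x ∂μ := by
  have hanti : Antitone (fun n => ∫ x, G E n x ∂μ) := by
    intro a b hab
    apply integral_mono
    · exact Integrable.of_bound (G_cont E b).aestronglyMeasurable 1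
        (by filter_upwards with x; rw [Real.norm_eq_abs, abs_of_nonneg (G_nonneg E b x)]; exact G_le_one E b x)
    · exact Integrable.of_bound (G_cont E a).aestronglyMeasurable 1
        (by filter_upwards with x; rw [Real.norm_eq_abs, abs_of_nonneg (G_nonneg E a x)]; exact G_le_one E a x)
    · intro x; exact G_anti E hab x
  exact hanti.le_of_tendsto (tendsto_integral_G μ E) n

/-- Eigenvectors give atoms. -/
theorem atom_of_eigenvector (T : H →L[ℂ] H) (hT : IsSelfAdjoint T) (v : H) (E : ℝ) (ψ : H)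
    (hψ : T ψ = (E : ℂ) • ψ) (hv : inner ℂ ψ v ≠ 0) : mu T hT v {E} ≠ 0 := by
  have hψ0 : ψ ≠ 0 := by rintro rfl; simp at hv
  have hE : E ∈ spectrum ℝ T := by
    intro hunit
    have hunit' : IsUnit (algebraMap ℝ (H →L[ℂ] H) E - T) := hunit
    obtain ⟨w, hw⟩ := hunit'
    have h1 : (w : H →L[ℂ] H) ψ = 0 := by
      rw [hw]
      simp [hψ, Algebra.algebraMap_eq_smul_one]
    have h2 : ((w⁻¹ : (H →L[ℂ] H)ˣ) : H →L[ℂ] H) ((w : H →L[ℂ] H) ψ) = ψ := by
      rw [← mul_apply_eq_comp, Units.inv_mul]; simp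
    rw [h1, map_zero] at h2
    exact hψ0 h2.symm
  have key : ∀ f : C(spectrum ℝ T, ℝ),
      cfcHom (R := ℝ) (a := T) hT f ψ = ((f ⟨E, hE⟩ : ℝ) : ℂ) • ψ := by
    intro f
    induction f using ContinuousMap.induction_on_of_compact with
    | const r =>
      have : ContinuousMap.const (spectrum ℝ T) r = algebraMap ℝ C(spectrum ℝ T, ℝ) r := rfl
      rw [this, AlgHomClass.commutes]
      simp [Algebra.algebraMap_eq_smul_one]
    | id =>
      rw [cfcHom_id]
      simpa using hψ
    | star_id =>
      rw [map_star, cfcHom_id, hT.star_eq]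
      simpa using hψ
    | add f g hf hg =>
      rw [map_add]
      simp only [ContinuousMap.add_apply, Complex.ofReal_add, add_smul]
      rw [← hf, ← hg]; simp
    | mul f g hf hg =>
      rw [map_mul, mul_apply_eq_comp, hg, map_smul, hf, smul_smul]
      simp [mul_comm]
    | frequently f hf =>
      have hcl : IsClosed {g : C(spectrum ℝ T, ℝ) |
          cfcHom (R := ℝ) (a := T) hT g ψ = ((g ⟨E, hE⟩ : ℝ) : ℂ) • ψ} := by
        apply isClosed_eq
        · have := cfcHom_continuous (R := ℝ) (a := T) hT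
          fun_prop
        · fun_prop
      have hmem := hcl.closure_eq ▸ (mem_closure_iff_frequently.mpr hf)
      exact hmem
  have hpos : 0 < ‖(inner ℂ ψ v : ℂ)‖ ^ 2 / ‖ψ‖ ^ 2 := by
    have : 0 < ‖(inner ℂ ψ v : ℂ)‖ := norm_pos_iff.mpr hv
    have : 0 < ‖ψ‖ := norm_pos_iff.mpr hψ0
    positivity
  have hlow : ∀ n : ℕ, ‖(inner ℂ ψ v : ℂ)‖ ^ 2 / ‖ψ‖ ^ 2 ≤ ∫ x, G E n x ∂(mu T hT v) := by
    intro n
    have h1 : ∫ x, G E n x ^ 2 ∂(mu T hT v) ≤ ∫ x, G E n x ∂(mu T hT v) := by
      apply integral_mono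
      · exact integrable_mu T hT v _ ((G_cont E n).pow 2)
      · exact integrable_mu T hT v _ (G_cont E n)
      · intro x
        have := G_nonneg E n x
        have := G_le_one E n x
        change G E n x ^ 2 ≤ G E n x
        nlinarith
    refine le_trans ?_ h1
    rw [integral_mu_sq T hT v _ (G_cont E n)]
    set A := cfcHom (R := ℝ) (a := T) hT (res T (G E n) (G_cont E n)) with hA
    have h2 : inner ℂ ψ (A v) = inner ℂ ψ v := by
      have h3 : inner ℂ ψ (A v) = inner ℂ (A ψ) v := by
        have : A = star A := by rw [hA, star_cfcHom]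
        conv_lhs => rw [this, ContinuousLinearMap.star_eq_adjoint,
          ContinuousLinearMap.adjoint_inner_right]
      rw [h3, hA, key]
      simp [res, G_self]
    have h4 : ‖(inner ℂ ψ v : ℂ)‖ ≤ ‖ψ‖ * ‖A v‖ := by
      rw [← h2]; exact norm_inner_le_norm _ _
    have h5 : 0 < ‖ψ‖ := norm_pos_iff.mpr hψ0
    rw [div_le_iff₀ (by positivity)]
    calc ‖(inner ℂ ψ v : ℂ)‖ ^ 2 ≤ (‖ψ‖ * ‖A v‖) ^ 2 := by gcongr
      _ = ‖A v‖ ^ 2 * ‖ψ‖ ^ 2 := by ring
  have hlim := ge_of_tendsto' (tendsto_integral_G (mu T hT v) E) hlow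
  intro h0
  rw [measureReal_def, h0] at hlim
  simp at hlim
  linarith

/-- Atoms give eigenvectors. -/
theorem eigenvector_of_atom (T : H →L[ℂ] H) (hT : IsSelfAdjoint T) (v : H) (E : ℝ)
    (hE : mu T hT v {E} ≠ 0) : ∃ u : H, u ≠ 0 ∧ T u = (E : ℂ) • u := by
  set μ := mu T hT v with hμ
  set Φ := cfcHom (R := ℝ) (a := T) hT with hΦ
  let g : ℕ → C(spectrum ℝ T, ℝ) := fun n => res T (G E n) (G_cont E n)
  let u : ℕ → H := fun n => Φ (g n) v
  let b : ℕ → ℝ := fun n => Real.sqrt ((∫ x, G E n x ∂μ) - μ.real {E})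
  have hb : Tendsto b atTop (𝓝 0) := by
    have h1 := (tendsto_integral_G μ E).sub_const (μ.real {E})
    rw [sub_self] at h1
    have h2 := (Real.continuous_sqrt.tendsto 0).comp h1
    rw [Real.sqrt_zero] at h2
    exact h2
  have hcauchy : CauchySeq u := by
    apply cauchySeq_of_le_tendsto_0 b _ hb
    intro n m N hn hm
    rw [dist_eq_norm]
    apply Real.le_sqrt_of_sq_le
    have h1 : u n - u m = Φ (res T (fun x => G E n x - G E m x)
        ((G_cont E n).sub (G_cont E m))) v := by
      have : res T (fun x => G E n x - G E m x) ((G_cont E n).sub (G_cont E m)) = g n - g m := by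
        ext x; simp [res, g]
      rw [this, map_sub]
      simp [u]
    rw [h1, hΦ, ← integral_mu_sq T hT v]
    have h2 : ∫ x, ({E} : Set ℝ).indicator (1 : ℝ → ℝ) x ∂μ = μ.real {E} := by
      rw [integral_indicator_one (measurableSet_singleton E)]
    have hi : Integrable (({E} : Set ℝ).indicator (1 : ℝ → ℝ)) μ :=
      (integrable_const (1 : ℝ)).indicator (measurableSet_singleton E)
    rw [← h2, ← integral_sub (integrable_mu T hT v _ (G_cont E N)) hi]
    apply integral_mono
    · exact integrable_mu T hT v _ (((G_cont E n).sub (G_cont E m)).pow 2)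
    · exact (integrable_mu T hT v _ (G_cont E N)).sub hi
    · intro x
      change (G E n x - G E m x) ^ 2 ≤ G E N x - ({E} : Set ℝ).indicator (1 : ℝ → ℝ) x
      by_cases hx : x = E
      · subst hx; simp [G_self]
      · rw [Set.indicator_of_notMem (by simpa using hx)]
        have a1 := G_nonneg E n x
        have a2 := G_nonneg E m x
        have a3 := G_anti E hn x
        have a4 := G_anti E hm x
        have a5 := G_le_one E N x
        have a6 := G_nonneg E N x
        have : (G E n x - G E m x) ^ 2 ≤ (G E N x) ^ 2 := by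
          apply sq_le_sq'
          · linarith
          · linarith
        nlinarith
  obtain ⟨w, hw⟩ := cauchySeq_tendsto_of_complete hcauchy
  refine ⟨w, ?_, ?_⟩
  · rintro rfl
    have h1 : Tendsto (fun n => (inner ℂ v (u n)).re) atTop (𝓝 (inner ℂ v (0 : H)).re) := by
      have : Continuous (fun z : H => (inner ℂ v z : ℂ).re) := by fun_prop
      exact (this.tendsto 0).comp hw
    have h2 : ∀ n, (inner ℂ v (u n)).re = ∫ x, G E n x ∂μ := by
      intro n
      rw [hμ, integral_mu T hT v _ (G_cont E n)]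
    simp_rw [h2] at h1
    have h3 := tendsto_nhds_unique h1 (tendsto_integral_G μ E)
    rw [inner_zero_right, Complex.zero_re] at h3
    have h4 : μ.real {E} ≠ 0 := by
      rw [measureReal_def]
      intro h
      rw [ENNReal.toReal_eq_zero_iff] at h
      rcases h with h | h
      · exact hE h
      · exact measure_ne_top μ _ h
    exact h4 h3.symm
  · have h1 : Tendsto (fun n => T (u n) - (E : ℂ) • u n) atTop (𝓝 (T w - (E : ℂ) • w)) := by
      have : Continuous (fun z : H => T z - (E : ℂ) • z) := by fun_prop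
      exact (this.tendsto w).comp hw
    have h2 : Tendsto (fun n => T (u n) - (E : ℂ) • u n) atTop (𝓝 0) := by
      rw [tendsto_zero_iff_norm_tendsto_zero]
      have hbd : ∀ n : ℕ, 0 < n → ‖T (u n) - (E : ℂ) • u n‖ ≤ 1 / n * Real.sqrt (μ.real Set.univ) := by
        intro n hn
        have e1 : T (u n) - (E : ℂ) • u n = Φ (res T (fun x => (x - E) * G E n x)
            ((continuous_id.sub continuous_const).mul (G_cont E n))) v := by
          have : res T (fun x => (x - E) * G E n x)
              ((continuous_id.sub continuous_const).mul (G_cont E n)) =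
              ((ContinuousMap.restrict (spectrum ℝ T) (ContinuousMap.id ℝ)) -
                algebraMap ℝ C(spectrum ℝ T, ℝ) E) * g n := by
            ext x; simp [res, g]
          rw [this, map_mul, map_sub, AlgHomClass.commutes, hΦ, cfcHom_id]
          simp [u, Algebra.algebraMap_eq_smul_one, mul_apply_eq_comp, hΦ]
        have e2 : ‖T (u n) - (E : ℂ) • u n‖ ^ 2 ≤ (1 / n) ^ 2 * μ.real Set.univ := by
          rw [e1, hΦ, ← integral_mu_sq T hT v]
          calc ∫ x, ((x - E) * G E n x) ^ 2 ∂(mu T hT v) ≤ ∫ x, (1 / (n : ℝ)) ^ 2 ∂(mu T hT v) := by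
                apply integral_mono
                · exact integrable_mu T hT v _
                    (((continuous_id.sub continuous_const).mul (G_cont E n)).pow 2)
                · exact integrable_const _
                · intro x; exact G_mul_le E n hn x
            _ = (1 / n) ^ 2 * μ.real Set.univ := by
                rw [integral_const, smul_eq_mul, mul_comm]
        have e3 : (1 / (n : ℝ)) ^ 2 * μ.real Set.univ = (1 / n * Real.sqrt (μ.real Set.univ)) ^ 2 := by
          rw [mul_pow, Real.sq_sqrt (by positivity)]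
        rw [e3] at e2
        exact (abs_le_of_sq_le_sq' e2 (by positivity)).2
      have hlim : Tendsto (fun n : ℕ => 1 / (n : ℝ) * Real.sqrt (μ.real Set.univ)) atTop (𝓝 0) := by
        have := (tendsto_one_div_atTop_nhds_zero_nat (𝕜 := ℝ)).mul_const (Real.sqrt (μ.real Set.univ))
        simpa using this
      apply squeeze_zero' (Eventually.of_forall fun n => norm_nonneg _) _ hlim
      filter_upwards [eventually_gt_atTop 0] with n hn
      exact hbd n hn
    have h3 := tendsto_nhds_unique h1 h2
    exact sub_eq_zero.mp h3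

end Pool.Agent.Helper90.Spec
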